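import Pool.Agent.TMX.Stmts3

/-!
# Squad TMX, row DInd: strong induction over the good peaks
-/

set_option autoImplicit false

open Finset

namespace Pool.Agent.TMX.H40

open Pool.Agent.TMX
open Pool.Agent.Helper51_Max (I IsMax)
open Pool.Agent.Helper37_EM (var)

theorem sum_icc_split (a : ℕ → ℝ) {t p : ℕ} (h : t ≤ p) :
    ∑ i ∈ Icc t p, a i = a t + ∑ i ∈ Ioc t p, a i := by
  have h1 : Icc t p = insert t (Ioc t p) := by
    ext i
    simp only [mem_Icc, mem_insert, mem_Ioc]
    omega
  rw [h1, sum_insert]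
  simp

theorem dInd : DInd := by
  intro hVM hVB hReach N g M hM hG pf hpf hUp hmin
  have hn0 : (0 : ℝ) ≤ N := Nat.cast_nonneg N
  have hPk : ∀ q, Pk N g M q → q ≤ N ∧ M q = g q := fun q hq =>
    ⟨hq.1, le_antisymm hq.2.1 (Pool.Agent.Helper37_EM.g_le hM hq.1)⟩
  intro p
  induction p using Nat.strong_induction_on with
  | _ p ih =>
  intro hp
  obtain ⟨hpN, hMp⟩ := hPk p hp
  obtain ⟨hpfN, hMpf⟩ := hPk pf hpf
  have hpfp : pf ≤ p := hmin p hp
  obtain ⟨w, hw, hwmin⟩ := exists_min_image (Icc 0 p) g ⟨0, by simp⟩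
  have hwp : w ≤ p := (mem_Icc.1 hw).2
  have hmu : ∀ i, i ≤ p → g w ≤ g i := fun i hi => hwmin i (mem_Icc.2 ⟨Nat.zero_le _, hi⟩)
  set μ := g w with hμ
  have hμ0 : 0 ≤ μ := hM.nonneg w
  have hvn : ∀ (u : ℕ → ℝ) (a b : ℕ), 0 ≤ var u a b := fun u a b =>
    sum_nonneg fun i _ => abs_nonneg _
  rcases Nat.lt_or_ge pf w with hcase | hcase
  · -- the minimum is right of the first good peak
    classical
    obtain ⟨s, hs, hsmax⟩ := exists_max_image ((range w).filter (Pk N g M)) id
      ⟨pf, by rw [mem_filter, mem_range]; exact ⟨hcase, hpf⟩⟩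
    rw [mem_filter, mem_range] at hs
    obtain ⟨hsw, hsP⟩ := hs
    have hex : ∃ t, w ≤ t ∧ Pk N g M t := ⟨p, hwp, hp⟩
    obtain ⟨t, ⟨hwt, htP⟩, htmin⟩ : ∃ t, (w ≤ t ∧ Pk N g M t) ∧
        ∀ t', w ≤ t' → Pk N g M t' → t ≤ t' :=
      ⟨Nat.find hex, Nat.find_spec hex, fun t' h1 h2 => Nat.find_min' hex ⟨h1, h2⟩⟩
    have htp : t ≤ p := htmin p hwp hp
    have hst : s < t := by omega
    have hgap : Gap N g M s t := by
      refine ⟨hsP, htP, hst, fun v h1 h2 hv => ?_⟩
      rcases Nat.lt_or_ge v w with h3 | h3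
      · have h4 : v ≤ s := hsmax v (by rw [mem_filter, mem_range]; exact ⟨h3, hv⟩)
        omega
      · have := htmin v h3 hv
        omega
    have hok := (hG s t hgap).ii μ p hμ0 htp hpN hmu
    have hIH := ih s (by omega) hsP
    have hVMt := hVM N g M hM hG t p htP hp htp
    have hVBt := hVB g t p μ htp (fun i _ hi => hmu i hi)
    have e1 : var M 0 p = var M 0 s + var M s t + var M t p := by
      rw [Pool.Agent.Helper37_EM.var_add (Nat.zero_le t) htp,
        Pool.Agent.Helper37_EM.var_add (Nat.zero_le s) hst.le]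
    have e2 : var g 0 p = var g 0 s + var g s t + var g t p := by
      rw [Pool.Agent.Helper37_EM.var_add (Nat.zero_le t) htp,
        Pool.Agent.Helper37_EM.var_add (Nat.zero_le s) hst.le]
    have hA : g s + g t - 2 * μ ≤ var g s t := by
      have h1 : var g s t = var g s w + var g w t := by
        rw [Pool.Agent.Helper37_EM.var_add hsw.le hwt]
      have h2 := Pool.Agent.Helper37_EM.abs_le_var g hsw.le
      have h3 := Pool.Agent.Helper37_EM.abs_le_var g hwt
      have h4 := le_abs_self (g s - g w)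
      have h5 := neg_abs_le (g w - g t)
      rw [h1]
      linarith
    have hS := sum_icc_split (fun i => g i - μ) htp
    -- sums
    have hsum : ∑ i ∈ range p, g i = ∑ i ∈ range s, g i + ∑ i ∈ Ico s p, g i := by
      rw [range_eq_Ico, range_eq_Ico, sum_Ico_consecutive g (Nat.zero_le s) (by omega)]
    have hS1 : g s + ∑ i ∈ Ico t p, (g i - μ) ≤ ∑ i ∈ Ico s p, g i := by
      have h1 : ∑ i ∈ Ico s p, g i = ∑ i ∈ Ico s t, g i + ∑ i ∈ Ico t p, g i := by
        rw [sum_Ico_consecutive g hst.le htp]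
      have h2 : g s ≤ ∑ i ∈ Ico s t, g i :=
        single_le_sum (f := g) (fun i _ => hM.nonneg i) (mem_Ico.2 ⟨le_rfl, hst⟩)
      have h3 : ∑ i ∈ Ico t p, (g i - μ) ≤ ∑ i ∈ Ico t p, g i :=
        sum_le_sum fun i _ => by linarith
      rw [h1]
      linarith
    have hQ : Qv g M s t = (g s + g t - var M s t) / 2 := rfl
    rw [hQ] at hok
    rw [e1, e2, hsum]
    set S1 := ∑ i ∈ Ico t p, (g i - μ) with hS1d
    set S2 := ∑ i ∈ Ioc t p, (g i - μ) with hS2d
    set V := var M s t with hV
    set n := (N : ℝ) with hn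
    have k1 : (n + 1) * var M t p ≤ (n + 1) * var g t p :=
      mul_le_mul_of_nonneg_left hVMt (by linarith)
    have k2 : n * (g s + g t - 2 * μ) ≤ n * var g s t := mul_le_mul_of_nonneg_left hA hn0
    have k3 : 2 * (n + 1) * ((g s + g t - V) / 2 - μ) =
        (n + 1) * (g s + g t - 2 * μ) - (n + 1) * V := by ring
    rw [k3, hS] at hok
    have k4 : (n + 1) * (var M 0 s + V + var M t p) =
        (n + 1) * var M 0 s + (n + 1) * V + (n + 1) * var M t p := by ring
    have k5 : n * (var g 0 s + var g s t + var g t p) =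
        n * var g 0 s + n * var g s t + n * var g t p := by ring
    have k6 : (n + 1) * (g s + g t - 2 * μ) = n * (g s + g t - 2 * μ) + (g s + g t - 2 * μ) := by
      ring
    have k7 : (n + 1) * var g t p = n * var g t p + var g t p := by ring
    rw [k4, k5]
    linarith
  · -- the minimum is left of the first good peak
    have hVMt := hVM N g M hM hG pf p hpf hp hpfp
    have hVBt := hVB g pf p μ hpfp (fun i _ hi => hmu i hi)
    have e1 : var M 0 p = (M pf - M 0) + var M pf p := by
      rw [← Pool.Agent.Helper37_EM.var_mono (Nat.zero_le pf)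
        (fun i _ hi => hUp i (i + 1) (Nat.zero_le _) (Nat.le_succ i) hi),
        Pool.Agent.Helper37_EM.var_add (Nat.zero_le pf) hpfp]
    have e2 : var g 0 p = var g 0 pf + var g pf p := by
      rw [Pool.Agent.Helper37_EM.var_add (Nat.zero_le pf) hpfp]
    have hI : I N 0 p = Icc 0 p := by
      unfold Pool.Agent.Helper51_Max.I
      congr 1 <;> omega
    have hR := (hReach N g M hM).1 0 p μ (Nat.zero_le _) (by
      rw [hI]
      exact sum_nonneg fun i hi => by
        have := hmu i (mem_Icc.1 hi).2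
        linarith)
    rw [hI] at hR
    have hvg : g pf - μ ≤ var g 0 pf := by
      have h1 : var g 0 pf = var g 0 w + var g w pf := by
        rw [Pool.Agent.Helper37_EM.var_add (Nat.zero_le w) hcase]
      have h2 := hvn g 0 w
      have h3 := Pool.Agent.Helper37_EM.abs_le_var g hcase
      have h4 := neg_abs_le (g w - g pf)
      rw [h1]
      linarith
    have hA : (g pf - μ) + ∑ i ∈ Ioc pf p, (g i - μ) ≤ ∑ i ∈ Icc 0 p, (g i - μ) := by
      rw [← sum_icc_split (fun i => g i - μ) hpfp]
      refine sum_le_sum_of_subset_of_nonneg ?_ ?_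
      · intro i hi
        rw [mem_Icc] at hi ⊢
        omega
      · intro i hi _
        have := hmu i (mem_Icc.1 hi).2
        linarith
    have hB : ∑ i ∈ Ico pf p, (g i - μ) ≤ ∑ i ∈ range p, g i := by
      have h3 : ∑ i ∈ Ico pf p, (g i - μ) ≤ ∑ i ∈ Ico pf p, g i :=
        sum_le_sum fun i _ => by linarith
      refine h3.trans (sum_le_sum_of_subset_of_nonneg ?_ fun i _ _ => hM.nonneg i)
      intro i hi
      rw [mem_Ico] at hi
      rw [mem_range]
      exact hi.2
    rw [e1, e2, hMpf]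
    set S0 := ∑ i ∈ Icc 0 p, (g i - μ) with hS0d
    set S1 := ∑ i ∈ Ico pf p, (g i - μ) with hS1d
    set S2 := ∑ i ∈ Ioc pf p, (g i - μ) with hS2d
    set n := (N : ℝ) with hn
    have k1 : (n + 1) * var M pf p ≤ (n + 1) * var g pf p :=
      mul_le_mul_of_nonneg_left hVMt (by linarith)
    have k2 : n * (g pf - μ) ≤ n * var g 0 pf := mul_le_mul_of_nonneg_left hvg hn0
    have k3 : (n + 1) * (g pf - M 0 + var M pf p) =
        n * (g pf - μ) + (g pf - μ) - (n + 1) * (M 0 - μ) + (n + 1) * var M pf p := by ring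
    have k4 : n * (var g 0 pf + var g pf p) = n * var g 0 pf + n * var g pf p := by ring
    have k5 : (n + 1) * var g pf p = n * var g pf p + var g pf p := by ring
    rw [k3, k4]
    linarith

end Pool.Agent.TMX.H40

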