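import Pool.Agent.TMX.Stmts3

/-!
# Squad TMX, row VB: the variation is bounded by two sums
-/

set_option autoImplicit false

open Finset

namespace Pool.Agent.TMX.H40

open Pool.Agent.TMX
open Pool.Agent.Helper37_EM (var)

theorem vB : VB := by
  intro g a b μ hab
  induction b, hab using Nat.le_induction with
  | base => intro _; simp [Pool.Agent.Helper37_EM.var]
  | succ c hac ih =>
    intro h
    have h1 := ih (fun i hi hi' => h i hi (by omega))
    have h2 := h c hac (by omega)
    have h3 := h (c + 1) (by omega) le_rfl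
    have e1 : var g a (c + 1) = var g a c + |g c - g (c + 1)| := by
      unfold Pool.Agent.Helper37_EM.var
      rw [sum_Ico_succ_top hac]
    have e2 : ∑ i ∈ Ico a (c + 1), (g i - μ) = ∑ i ∈ Ico a c, (g i - μ) + (g c - μ) := by
      rw [sum_Ico_succ_top hac]
    have e3 : ∑ i ∈ Ioc a (c + 1), (g i - μ) = ∑ i ∈ Ioc a c, (g i - μ) + (g (c + 1) - μ) := by
      rw [sum_Ioc_succ_top hac]
    have h4 : |g c - g (c + 1)| ≤ (g c - μ) + (g (c + 1) - μ) := by
      rw [abs_le]
      constructor <;> linarith
    rw [e1, e2, e3]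
    linarith

end Pool.Agent.TMX.H40
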